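import Mathlib

set_option autoImplicit false

namespace KahnSaks.H88

open Finset
open scoped InnerProductSpace

section Hilbert

variable {E : Type*} [NormedAddCommGroup E] [InnerProductSpace ℝ E]

/-- average of `a` over the block `[m, m + 2^L)`. -/
noncomputable def blk (a : ℕ → E) : ℕ → ℕ → E
  | 0, m => a m
  | L + 1, m => (2⁻¹ : ℝ) • (blk a L m + blk a L (m + 2 ^ L))

/-- average of the energy of `a` over the block `[m, m + 2^L)`. -/
noncomputable def eblk (a : ℕ → E) : ℕ → ℕ → ℝ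
  | 0, m => ‖a m‖ ^ 2
  | L + 1, m => 2⁻¹ * (eblk a L m + eblk a L (m + 2 ^ L))

/-- average of a function of `b` over a block, in the second argument. -/
theorem blk_norm_le (a : ℕ → E) (M : ℝ) (N : ℕ) (ha : ∀ i < N, ‖a i‖ ≤ M) :
    ∀ L m : ℕ, m + 2 ^ L ≤ N → ‖blk a L m‖ ≤ M := by
  intro L
  induction L with
  | zero => intro m hm; simpa [blk] using ha m (by simpa using hm)
  | succ L ih =>
    intro m hm
    have hp : 2 ^ (L + 1) = 2 ^ L + 2 ^ L := by ring
    have hpos : 0 < 2 ^ L := by positivity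
    rw [blk, norm_smul]
    have h1 := ih m (by omega)
    have h2 := ih (m + 2 ^ L) (by omega)
    have h3 := norm_add_le (blk a L m) (blk a L (m + 2 ^ L))
    rw [Real.norm_eq_abs, abs_of_pos (by norm_num : (0:ℝ) < 2⁻¹)]
    linarith

theorem eblk_le (a : ℕ → E) (M : ℝ) (N : ℕ) (hM : 0 ≤ M) (ha : ∀ i < N, ‖a i‖ ≤ M) :
    ∀ L m : ℕ, m + 2 ^ L ≤ N → eblk a L m ≤ M ^ 2 := by
  intro L
  induction L with
  | zero =>
    intro m hm
    have := ha m (by simpa using hm)
    simp only [eblk]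
    exact pow_le_pow_left₀ (norm_nonneg _) this 2
  | succ L ih =>
    intro m hm
    have hp : 2 ^ (L + 1) = 2 ^ L + 2 ^ L := by ring
    have hpos : 0 < 2 ^ L := by positivity
    rw [eblk]
    have h1 := ih m (by omega)
    have h2 := ih (m + 2 ^ L) (by omega)
    linarith

/-- The antisymmetric form of averages is at least `ε`, if pointwise. -/
theorem omega_point_blk (a b : ℕ → E) (x y : E) (ε : ℝ) :
    ∀ L m : ℕ, (∀ j, m ≤ j → j < m + 2 ^ L → ε ≤ ⟪x, b j⟫_ℝ - ⟪a j, y⟫_ℝ) →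
      ε ≤ ⟪x, blk b L m⟫_ℝ - ⟪blk a L m, y⟫_ℝ := by
  intro L
  induction L with
  | zero => intro m h; simpa [blk] using h m le_rfl (by simp)
  | succ L ih =>
    intro m h
    have hp : 2 ^ (L + 1) = 2 ^ L + 2 ^ L := by ring
    have h1 := ih m (fun j h1 h2 => h j h1 (by omega))
    have h2 := ih (m + 2 ^ L) (fun j h1 h2 => h j (by omega) (by omega))
    simp only [blk, inner_smul_left, inner_smul_right, inner_add_left, inner_add_right]
    simp only [conj_trivial]
    linarith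

theorem omega_blk_blk (a b : ℕ → E) (ε : ℝ) (L m' : ℕ) :
    ∀ K m : ℕ, (∀ i j, m ≤ i → i < m + 2 ^ K → m' ≤ j → j < m' + 2 ^ L →
        ε ≤ ⟪a i, b j⟫_ℝ - ⟪a j, b i⟫_ℝ) →
      ε ≤ ⟪blk a K m, blk b L m'⟫_ℝ - ⟪blk a L m', blk b K m⟫_ℝ := by
  intro K
  induction K with
  | zero =>
    intro m h
    simp only [blk]
    exact omega_point_blk a b (a m) (b m) ε L m' (fun j h1 h2 => h m j le_rfl (by simp) h1 h2)
  | succ K ih =>
    intro m h
    have hp : 2 ^ (K + 1) = 2 ^ K + 2 ^ K := by ring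
    have h1 := ih m (fun i j h1 h2 => h i j h1 (by omega))
    have h2 := ih (m + 2 ^ K) (fun i j h1 h2 => h i j (by omega) (by omega))
    simp only [blk, inner_smul_left, inner_smul_right, inner_add_left, inner_add_right] at *
    simp only [conj_trivial] at *
    linarith

/-- energy increment -/
theorem energy_incr (a b : ℕ → E) (M ε : ℝ) (N : ℕ) (hM : 0 < M) (hε : 0 ≤ ε)
    (ha : ∀ i < N, ‖a i‖ ≤ M) (hb : ∀ i < N, ‖b i‖ ≤ M)
    (h : ∀ i j, i < j → j < N → ε ≤ ⟪a i, b j⟫_ℝ - ⟪a j, b i⟫_ℝ) :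
    ∀ L m : ℕ, m + 2 ^ L ≤ N →
      ‖blk a L m‖ ^ 2 + ‖blk b L m‖ ^ 2 + L * (ε ^ 2 / (8 * M ^ 2)) ≤ eblk a L m + eblk b L m := by
  intro L
  induction L with
  | zero => intro m _; simp [blk, eblk]
  | succ L ih =>
    intro m hm
    have hp : 2 ^ (L + 1) = 2 ^ L + 2 ^ L := by ring
    have hpos : 0 < 2 ^ L := by positivity
    have h1 := ih m (by omega)
    have h2 := ih (m + 2 ^ L) (by omega)
    have h3 := omega_blk_blk a b ε L (m + 2 ^ L) L m
      (fun i j h1 h2 h3 h4 => h i j (by omega) (by omega))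
    have na := blk_norm_le a M N ha (L + 1) m hm
    have nb := blk_norm_le b M N hb (L + 1) m hm
    set a1 := blk a L m
    set a2 := blk a L (m + 2 ^ L)
    set b1 := blk b L m
    set b2 := blk b L (m + 2 ^ L)
    have ea : blk a (L + 1) m = (2⁻¹ : ℝ) • (a1 + a2) := rfl
    have eb : blk b (L + 1) m = (2⁻¹ : ℝ) • (b1 + b2) := rfl
    rw [ea] at na
    rw [eb] at nb
    rw [ea, eb]
    simp only [eblk]
    set A := (2⁻¹ : ℝ) • (a1 + a2) with hA
    set B := (2⁻¹ : ℝ) • (b1 + b2) with hB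
    set U := (2⁻¹ : ℝ) • (a1 - a2) with hU
    set V := (2⁻¹ : ℝ) • (b1 - b2) with hV
    have e1 : a1 = A + U := by rw [hA, hU]; module
    have e2 : a2 = A - U := by rw [hA, hU]; module
    have e3 : b1 = B + V := by rw [hB, hV]; module
    have e4 : b2 = B - V := by rw [hB, hV]; module
    have pa : ‖a1‖ ^ 2 + ‖a2‖ ^ 2 = 2 * ‖A‖ ^ 2 + 2 * ‖U‖ ^ 2 := by
      rw [e1, e2, norm_add_sq_real, norm_sub_sq_real]; ring
    have pb : ‖b1‖ ^ 2 + ‖b2‖ ^ 2 = 2 * ‖B‖ ^ 2 + 2 * ‖V‖ ^ 2 := by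
      rw [e3, e4, norm_add_sq_real, norm_sub_sq_real]; ring
    have ho : ⟪a1, b2⟫_ℝ - ⟪a2, b1⟫_ℝ = 2 * ⟪U, B⟫_ℝ - 2 * ⟪A, V⟫_ℝ := by
      rw [e1, e2, e3, e4]
      simp only [inner_add_left, inner_add_right, inner_sub_left, inner_sub_right]
      ring
    have c1 : ⟪U, B⟫_ℝ ≤ ‖U‖ * M :=
      (real_inner_le_norm U B).trans (mul_le_mul_of_nonneg_left nb (norm_nonneg _))
    have c2 : -⟪A, V⟫_ℝ ≤ M * ‖V‖ := by
      have := real_inner_le_norm (-A) V
      rw [inner_neg_left, norm_neg] at this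
      exact this.trans (mul_le_mul_of_nonneg_right na (norm_nonneg _))
    have hUV : ε ≤ 2 * M * (‖U‖ + ‖V‖) := by nlinarith [h3, ho, c1, c2]
    have hsq : ε ^ 2 / (8 * M ^ 2) ≤ ‖U‖ ^ 2 + ‖V‖ ^ 2 := by
      rw [div_le_iff₀ (by positivity)]
      have : ε ^ 2 ≤ (2 * M * (‖U‖ + ‖V‖)) ^ 2 := pow_le_pow_left₀ hε hUV 2
      nlinarith [this, sq_nonneg (‖U‖ - ‖V‖), sq_nonneg M,
        mul_nonneg (sq_nonneg M) (sq_nonneg (‖U‖ - ‖V‖))]
    push_cast
    nlinarith [h1, h2, pa, pb, hsq]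

/-- In a long sequence of pairs of vectors the antisymmetric form cannot be `≥ ε` for all `i < j`. -/
theorem exists_small_ordered (a b : ℕ → E) (M ε : ℝ) (L : ℕ) (hM : 0 < M) (hε : 0 < ε)
    (hL : 16 * M ^ 4 < L * ε ^ 2)
    (ha : ∀ i < 2 ^ L, ‖a i‖ ≤ M) (hb : ∀ i < 2 ^ L, ‖b i‖ ≤ M) :
    ∃ i j, i < j ∧ j < 2 ^ L ∧ ⟪a i, b j⟫_ℝ - ⟪a j, b i⟫_ℝ < ε := by
  by_contra hcon
  push Not at hcon
  have h := energy_incr a b M ε (2 ^ L) hM hε.le ha hb hcon L 0 (by simp)
  have h1 := eblk_le a M (2 ^ L) hM.le ha L 0 (by simp)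
  have h2 := eblk_le b M (2 ^ L) hM.le hb L 0 (by simp)
  have h3 : (L : ℝ) * (ε ^ 2 / (8 * M ^ 2)) ≤ 2 * M ^ 2 := by
    nlinarith [sq_nonneg ‖blk a L 0‖, sq_nonneg ‖blk b L 0‖]
  have h4 : (L : ℝ) * (ε ^ 2 / (8 * M ^ 2)) = L * ε ^ 2 / (8 * M ^ 2) := by ring
  rw [h4, div_le_iff₀ (by positivity)] at h3
  nlinarith [h3, hL]

end Hilbert

section Tournament

/-- Every tournament on at least `2^n` vertices contains a transitive chain of length `n`
(as an injective sequence `x 0, x 1, …` with `r (x i) (x j)` for `i < j`). -/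
theorem exists_chain {V : Type*} [DecidableEq V] (r : V → V → Prop) :
    ∀ (n : ℕ) (S : Finset V), 2 ^ n ≤ S.card →
      (∀ x ∈ S, ∀ y ∈ S, x ≠ y → r x y ∨ r y x) →
      ∃ x : ℕ → V, (∀ i ≤ n, x i ∈ S) ∧ (∀ i j, i < j → j ≤ n → x i ≠ x j ∧ r (x i) (x j)) := by
  classical
  intro n
  induction n with
  | zero =>
    intro S hS _
    obtain ⟨v, hv⟩ := Finset.card_pos.mp (by simpa using hS : 0 < S.card)
    exact ⟨fun _ => v, fun i _ => hv, fun i j h1 h2 => by omega⟩
  | succ n ih =>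
    intro S hS htot
    have hpos : 0 < 2 ^ n := by positivity
    have hp : 2 ^ (n + 1) = 2 ^ n + 2 ^ n := by ring
    obtain ⟨v, hv⟩ := Finset.card_pos.mp (by omega : 0 < S.card)
    set O := (S.erase v).filter (fun y => r v y) with hO
    set I := (S.erase v).filter (fun y => ¬ r v y) with hI
    have hcard : O.card + I.card = S.card - 1 := by
      rw [hO, hI, Finset.card_filter_add_card_filter_not, Finset.card_erase_of_mem hv]
    by_cases hc : 2 ^ n ≤ O.card
    · obtain ⟨x, hx1, hx2⟩ := ih O hc (fun y hy z hz hyz => htot y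
        (Finset.mem_of_mem_erase (Finset.mem_filter.mp hy).1) z
        (Finset.mem_of_mem_erase (Finset.mem_filter.mp hz).1) hyz)
      refine ⟨fun i => if i = 0 then v else x (i - 1), ?_, ?_⟩
      · intro i hi
        by_cases h0 : i = 0
        · simp [h0, hv]
        · simp only [h0, if_false]
          exact Finset.mem_of_mem_erase (Finset.mem_filter.mp (hx1 (i - 1) (by omega))).1
      · intro i j hij hj
        have hj0 : j ≠ 0 := by omega
        by_cases h0 : i = 0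
        · simp only [h0, hj0, if_true, if_false]
          have := Finset.mem_filter.mp (hx1 (j - 1) (by omega))
          exact ⟨(Finset.ne_of_mem_erase this.1).symm, this.2⟩
        · simp only [h0, hj0, if_false]
          exact hx2 (i - 1) (j - 1) (by omega) (by omega)
    · have hc' : 2 ^ n ≤ I.card := by omega
      obtain ⟨x, hx1, hx2⟩ := ih I hc' (fun y hy z hz hyz => htot y
        (Finset.mem_of_mem_erase (Finset.mem_filter.mp hy).1) z
        (Finset.mem_of_mem_erase (Finset.mem_filter.mp hz).1) hyz)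
      refine ⟨fun i => if i ≤ n then x i else v, ?_, ?_⟩
      · intro i hi
        by_cases h0 : i ≤ n
        · simp only [h0, if_true]
          exact Finset.mem_of_mem_erase (Finset.mem_filter.mp (hx1 i h0)).1
        · simp [h0, hv]
      · intro i j hij hj
        have hi0 : i ≤ n := by omega
        by_cases h0 : j ≤ n
        · simp only [h0, hi0, if_true]
          exact hx2 i j hij h0
        · simp only [h0, hi0, if_true, if_false]
          have hm := Finset.mem_filter.mp (hx1 i hi0)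
          have hne := Finset.ne_of_mem_erase hm.1
          refine ⟨hne, ?_⟩
          rcases htot (x i) (Finset.mem_of_mem_erase hm.1) v hv hne with h | h
          · exact h
          · exact absurd h hm.2

end Tournament

section Combined

open scoped InnerProductSpace

variable {E : Type*} [NormedAddCommGroup E] [InnerProductSpace ℝ E]

/-- **Pigeonhole for intransitive comparisons.**  Among at least `2^(2^L)` pairs of vectors of
norm `≤ M` two have a small antisymmetric form. -/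
theorem exists_small_pair {V : Type*} (S : Finset V) (a b : V → E) (M ε : ℝ)
    (L : ℕ) (hM : 0 < M) (hε : 0 < ε) (hL : 16 * M ^ 4 < L * ε ^ 2)
    (hS : 2 ^ (2 ^ L) ≤ S.card)
    (ha : ∀ i ∈ S, ‖a i‖ ≤ M) (hb : ∀ i ∈ S, ‖b i‖ ≤ M) :
    ∃ x ∈ S, ∃ y ∈ S, x ≠ y ∧ |⟪a x, b y⟫_ℝ - ⟪a y, b x⟫_ℝ| < ε := by
  classical
  by_contra hcon
  push Not at hcon
  obtain ⟨x, hx1, hx2⟩ := exists_chain (fun x y => ε ≤ ⟪a x, b y⟫_ℝ - ⟪a y, b x⟫_ℝ) (2 ^ L) S hS
    (fun x hx y hy hxy => by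
      rcases le_abs'.mp (hcon x hx y hy hxy) with h | h
      · right; linarith
      · left; exact h)
  obtain ⟨i, j, hij, hj, hlt⟩ := exists_small_ordered (fun i => a (x i)) (fun i => b (x i)) M ε L
    hM hε hL (fun i hi => ha _ (hx1 i hi.le)) (fun i hi => hb _ (hx1 i hi.le))
  exact absurd (hx2 i j hij hj.le).2 (not_le.mpr hlt)

end Combined

end KahnSaks.H88
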