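import Pool.Agent.Lib.MP_c534e4_co.H88.Hilbert

set_option autoImplicit false

namespace KahnSaks.H88

open MeasureTheory Finset
open scoped InnerProductSpace ENNReal

section Bucket

variable {Ω : Type*} [MeasurableSpace Ω] (μ : Measure Ω) [IsProbabilityMeasure μ]

/-- General form: random indices with values in a finite type, two families of vectors. -/
theorem exists_small_pair_random {ι : Type*} [Finite ι] [MeasurableSpace ι]
    [MeasurableSingletonClass ι] {F : Type*} [NormedAddCommGroup F] [InnerProductSpace ℝ F]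
    (α β : ι → F) (M ε : ℝ) (L : ℕ) (hM : 0 < M) (hε : 0 < ε) (hL : 16 * M ^ 4 < L * ε ^ 2)
    (hα : ∀ i, ‖α i‖ ≤ M) (hβ : ∀ i, ‖β i‖ ≤ M)
    {V : Type*} (S : Finset V) (hS : 2 ^ (2 ^ L) ≤ S.card)
    (B : V → Ω → ι) (hB : ∀ x ∈ S, Measurable (B x)) :
    ∃ x ∈ S, ∃ y ∈ S, x ≠ y ∧
      |(∫ ω, ⟪α (B x ω), β (B y ω)⟫_ℝ ∂μ) - ∫ ω, ⟪α (B y ω), β (B x ω)⟫_ℝ ∂μ| < ε := by
  classical
  have hmem : ∀ (γ : ι → F), (∀ i, ‖γ i‖ ≤ M) → ∀ x ∈ S, MemLp (fun ω => γ (B x ω)) 2 μ := by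
    intro γ hγ x hx
    refine MemLp.of_bound ?_ M (Filter.Eventually.of_forall fun ω => hγ _)
    have h1 : StronglyMeasurable γ := StronglyMeasurable.of_discrete
    exact (h1.comp_measurable (hB x hx)).aestronglyMeasurable
  -- vectors
  let a : V → Lp F 2 μ := fun x => if hx : x ∈ S then (hmem α hα x hx).toLp else 0
  let b : V → Lp F 2 μ := fun x => if hx : x ∈ S then (hmem β hβ x hx).toLp else 0
  have hnorm : ∀ (γ : ι → F) (hγ : ∀ i, ‖γ i‖ ≤ M) (x : V) (hx : x ∈ S),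
      ‖(hmem γ hγ x hx).toLp‖ ≤ M := by
    intro γ hγ x hx
    have hb : ∀ᵐ ω ∂μ, ‖((hmem γ hγ x hx).toLp : Lp F 2 μ) ω‖ ≤ M := by
      filter_upwards [(hmem γ hγ x hx).coeFn_toLp] with ω hω
      rw [hω]; exact hγ _
    have h := Lp.norm_le_of_ae_bound hM.le hb
    simpa [measureUnivNNReal] using h
  have ha : ∀ x ∈ S, ‖a x‖ ≤ M := by
    intro x hx
    simp only [a, hx, dif_pos]
    exact hnorm α hα x hx
  have hb : ∀ x ∈ S, ‖b x‖ ≤ M := by
    intro x hx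
    simp only [b, hx, dif_pos]
    exact hnorm β hβ x hx
  obtain ⟨x, hx, y, hy, hxy, h⟩ := exists_small_pair S a b M ε L hM hε hL hS ha hb
  refine ⟨x, hx, y, hy, hxy, ?_⟩
  have hinner : ∀ x (hx : x ∈ S) y (hy : y ∈ S),
      ⟪a x, b y⟫_ℝ = ∫ ω, ⟪α (B x ω), β (B y ω)⟫_ℝ ∂μ := by
    intro x hx y hy
    simp only [a, b, hx, hy, dif_pos]
    rw [L2.inner_def]
    refine integral_congr_ae ?_
    filter_upwards [(hmem α hα x hx).coeFn_toLp, (hmem β hβ y hy).coeFn_toLp] with ω h1 h2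
    rw [h1, h2]
  rw [hinner x hx y hy, hinner y hy x hx] at h
  exact h

/-- Bucket version: among many random variables with values in `Fin K` two are nearly balanced. -/
theorem exists_balanced_bucket (K : ℕ) (ε : ℝ) (L : ℕ) (hK : 0 < K) (hε : 0 < ε)
    (hL : 16 * (K : ℝ) ^ 2 < L * ε ^ 2)
    {V : Type*} (S : Finset V) (hS : 2 ^ (2 ^ L) ≤ S.card)
    (B : V → Ω → Fin K) (hB : ∀ x ∈ S, Measurable (B x)) :
    ∃ x ∈ S, ∃ y ∈ S, x ≠ y ∧
      |μ.real {ω | B x ω < B y ω} - μ.real {ω | B y ω < B x ω}| < ε := by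
  classical
  have hK1 : (1 : ℝ) ≤ K := by exact_mod_cast hK
  have hM4 : (√(K : ℝ)) ^ 4 = (K : ℝ) ^ 2 := by
    have h0 : (0 : ℝ) ≤ K := by positivity
    calc (√(K : ℝ)) ^ 4 = ((√(K : ℝ)) ^ 2) ^ 2 := by ring
      _ = _ := by rw [Real.sq_sqrt h0]
  let α : Fin K → EuclideanSpace ℝ (Fin K) := fun k => WithLp.toLp 2 fun l => if k < l then 1 else 0
  let β : Fin K → EuclideanSpace ℝ (Fin K) := fun k => WithLp.toLp 2 fun l => if k = l then 1 else 0
  have hα : ∀ i, ‖α i‖ ≤ √(K : ℝ) := by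
    intro i
    rw [EuclideanSpace.norm_eq]
    apply Real.sqrt_le_sqrt
    calc ∑ l, ‖(α i) l‖ ^ 2 ≤ ∑ l : Fin K, (1 : ℝ) := by
          refine Finset.sum_le_sum fun l _ => ?_
          simp only [α]
          split_ifs <;> simp
      _ = K := by simp
  have hβ : ∀ i, ‖β i‖ ≤ √(K : ℝ) := by
    intro i
    rw [EuclideanSpace.norm_eq]
    apply Real.sqrt_le_sqrt
    calc ∑ l, ‖(β i) l‖ ^ 2 = 1 := by simp [β]
      _ ≤ K := hK1
  have hin : ∀ k k', ⟪α k, β k'⟫_ℝ = if k < k' then (1 : ℝ) else 0 := by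
    intro k k'
    simp only [α, β, PiLp.inner_apply]
    rw [Finset.sum_eq_single k']
    · simp
    · intro l _ hl
      simp [hl.symm]
    · simp
  obtain ⟨x, hx, y, hy, hxy, h⟩ := exists_small_pair_random μ α β (√(K : ℝ)) ε L
    (Real.sqrt_pos.mpr (by exact_mod_cast hK)) hε (by rw [hM4]; exact hL) hα hβ S hS B hB
  refine ⟨x, hx, y, hy, hxy, ?_⟩
  have hint : ∀ x ∈ S, ∀ y ∈ S, (∫ ω, ⟪α (B x ω), β (B y ω)⟫_ℝ ∂μ) = μ.real {ω | B x ω < B y ω} := by
    intro x hx y hy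
    have hm : MeasurableSet {ω | B x ω < B y ω} := measurableSet_lt (hB x hx) (hB y hy)
    rw [← integral_indicator_one hm]
    refine integral_congr_ae (Filter.Eventually.of_forall fun ω => ?_)
    simp only [hin, Set.indicator, Set.mem_ofPred_eq, Pi.one_apply]
  rw [hint x hx y hy, hint y hy x hx] at h
  exact h

end Bucket

section Real

variable {Ω : Type*} [MeasurableSpace Ω] (μ : Measure Ω) [IsProbabilityMeasure μ]

/-- the bucket of a real number -/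
noncomputable def bucket (R δ : ℝ) (K : ℕ) (hK : 0 < K) (y : ℝ) : Fin K :=
  ⟨min (⌊(y + R) / δ⌋₊) (K - 1), by omega⟩

theorem measurable_bucket (R δ : ℝ) (K : ℕ) (hK : 0 < K) : Measurable (bucket R δ K hK) := by
  have h1 : Measurable fun y : ℝ => ⌊(y + R) / δ⌋₊ := by fun_prop
  have h2 : Measurable fun n : ℕ => (⟨min n (K - 1), by omega⟩ : Fin K) := measurable_from_top
  exact h2.comp h1

theorem bucket_lt {R δ : ℝ} {K : ℕ} (hK : 0 < K) (hδ : 0 < δ) (hR : 2 * R / δ < K)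
    {y z : ℝ} (hy : |y| ≤ R) (hz : |z| ≤ R) (hyz : y + δ < z) :
    bucket R δ K hK y < bucket R δ K hK z := by
  have hy' := abs_le.mp hy
  have hz' := abs_le.mp hz
  have h0 : 0 ≤ (y + R) / δ := by apply div_nonneg <;> linarith
  have h1 : (y + R) / δ + 1 < (z + R) / δ := by
    rw [div_add_one hδ.ne', div_lt_div_iff_of_pos_right hδ]; linarith
  have h2 : ⌊(y + R) / δ⌋₊ + 1 ≤ ⌊(z + R) / δ⌋₊ := by
    rw [← Nat.floor_add_one h0]
    exact Nat.floor_mono h1.le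
  have h3 : ⌊(z + R) / δ⌋₊ < K := by
    rw [Nat.floor_lt (by linarith)]
    refine lt_of_le_of_lt ?_ hR
    exact div_le_div_of_nonneg_right (by linarith) hδ.le
  rw [Fin.lt_def]
  simp only [bucket]
  omega

/-- **Real version of the pigeonhole.** -/
theorem exists_balanced_real (R δ η₁ η₂ ε : ℝ) (K L : ℕ) (hK : 0 < K) (hδ : 0 < δ) (hε : 0 < ε)
    (hR : 2 * R / δ < K) (hL : 16 * (K : ℝ) ^ 2 < L * ε ^ 2)
    {V : Type*} (S : Finset V) (hS : 2 ^ (2 ^ L) ≤ S.card)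
    (Y : V → Ω → ℝ) (hY : ∀ x ∈ S, Measurable (Y x))
    (h1 : ∀ x ∈ S, μ.real {ω | R < |Y x ω|} ≤ η₁)
    (h2 : ∀ x ∈ S, ∀ y ∈ S, x ≠ y → μ.real {ω | |Y x ω - Y y ω| ≤ δ} ≤ η₂) :
    ∃ x ∈ S, ∃ y ∈ S, x ≠ y ∧
      |μ.real {ω | Y x ω < Y y ω} - μ.real {ω | Y y ω < Y x ω}| < ε + 4 * η₁ + 2 * η₂ := by
  obtain ⟨x, hx, y, hy, hxy, h⟩ := exists_balanced_bucket μ K ε L hK hε hL S hS
    (fun x ω => bucket R δ K hK (Y x ω))
    (fun x hx => (measurable_bucket R δ K hK).comp (hY x hx))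
  refine ⟨x, hx, y, hy, hxy, ?_⟩
  have key : ∀ x ∈ S, ∀ y ∈ S, x ≠ y →
      μ.real {ω | Y x ω < Y y ω} ≤
        μ.real {ω | bucket R δ K hK (Y x ω) < bucket R δ K hK (Y y ω)} + (2 * η₁ + η₂) ∧
      μ.real {ω | bucket R δ K hK (Y x ω) < bucket R δ K hK (Y y ω)} ≤
        μ.real {ω | Y x ω < Y y ω} + (2 * η₁ + η₂) := by
    intro x hx y hy hxy
    have hbad : μ.real ({ω | R < |Y x ω|} ∪ ({ω | R < |Y y ω|} ∪ {ω | |Y x ω - Y y ω| ≤ δ}))
        ≤ 2 * η₁ + η₂ := by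
      have e1 := measureReal_union_le (μ := μ) {ω | R < |Y x ω|}
        ({ω | R < |Y y ω|} ∪ {ω | |Y x ω - Y y ω| ≤ δ})
      have e2 := measureReal_union_le (μ := μ) {ω | R < |Y y ω|} {ω | |Y x ω - Y y ω| ≤ δ}
      have e3 := h1 x hx
      have e4 := h1 y hy
      have e5 := h2 x hx y hy hxy
      linarith
    constructor
    · have hsub : {ω | Y x ω < Y y ω} ⊆
          {ω | bucket R δ K hK (Y x ω) < bucket R δ K hK (Y y ω)} ∪
          ({ω | R < |Y x ω|} ∪ ({ω | R < |Y y ω|} ∪ {ω | |Y x ω - Y y ω| ≤ δ})) := by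
        intro ω hω
        simp only [Set.mem_union, Set.mem_ofPred_eq] at *
        by_contra hcon
        push Not at hcon
        obtain ⟨c1, c2, c3, c4⟩ := hcon
        have : δ < Y y ω - Y x ω := by
          rcases lt_abs.mp c4 with h | h <;> linarith
        exact absurd (bucket_lt hK hδ hR c2 c3 (by linarith)) (not_lt.mpr c1)
      have := measureReal_mono (μ := μ) hsub
      have e := measureReal_union_le (μ := μ)
        {ω | bucket R δ K hK (Y x ω) < bucket R δ K hK (Y y ω)}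
        ({ω | R < |Y x ω|} ∪ ({ω | R < |Y y ω|} ∪ {ω | |Y x ω - Y y ω| ≤ δ}))
      linarith
    · have hsub : {ω | bucket R δ K hK (Y x ω) < bucket R δ K hK (Y y ω)} ⊆
          {ω | Y x ω < Y y ω} ∪
          ({ω | R < |Y x ω|} ∪ ({ω | R < |Y y ω|} ∪ {ω | |Y x ω - Y y ω| ≤ δ})) := by
        intro ω hω
        simp only [Set.mem_union, Set.mem_ofPred_eq] at *
        by_contra hcon
        push Not at hcon
        obtain ⟨c1, c2, c3, c4⟩ := hcon
        have : δ < Y x ω - Y y ω := by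
          rcases lt_abs.mp c4 with h | h <;> linarith
        exact absurd (bucket_lt hK hδ hR c3 c2 (by linarith)) (not_lt.mpr hω.le)
      have := measureReal_mono (μ := μ) hsub
      have e := measureReal_union_le (μ := μ) {ω | Y x ω < Y y ω}
        ({ω | R < |Y x ω|} ∪ ({ω | R < |Y y ω|} ∪ {ω | |Y x ω - Y y ω| ≤ δ}))
      linarith
  have k1 := key x hx y hy hxy
  have k2 := key y hy x hx hxy.symm
  have hh := abs_lt.mp h
  rw [abs_lt]
  constructor <;> linarith [k1.1, k1.2, k2.1, k2.2, hh.1, hh.2]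

end Real

end KahnSaks.H88
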